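import Pool.Agent.K1H81.DC.Stm

set_option autoImplicit false

namespace Pool.Agent.K1H33.DC

open Finset hiding val
open Pool.Agent.Y722.HS Pool.Agent.X280.HG Pool.Agent.X280.BP
open Pool.Agent.K1H81.HV Pool.Agent.K1H81.DC

theorem t : Pool.Agent.K1H81.DC.S_IND := by
  classical
  intro p hp n d D x h hd hD Y hY F
  induction hd with
  | base T g hT hx hc hg =>
    obtain ⟨Y', hY', hYc⟩ := card_fix (p := p) (deg x) (deg_pos x)
    have hYY : Y' = Y := by
      ext y
      rw [hY, hY']
    subst hYY
    have h1 : ∀ y ∈ Y', ∃ b : Mon n d → ZMod p, ev b x = y ∧ ∀ t ∈ T, ev b t = 0 := fun y hy =>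
      dirP x T hT hx (by omega) y ((hY y).1 hy)
    choose! b hb1 hb2 using h1
    set S : ℝ := ∑ c : Mon n d → ZMod p, (if ev c x = 0 then (1 : ℝ) else 0) * g c with hS
    have h2 : ∀ y ∈ Y', ∑ c : Mon n d → ZMod p, (if ev c x = y then (1 : ℝ) else 0) * g c = S := by
      intro y hy
      rw [hS, ← Equiv.sum_comp (Equiv.addRight (b y))]
      refine Finset.sum_congr rfl fun c _ => ?_
      rw [Equiv.coe_addRight, hg c (b y) (hb2 y hy), ev_add, hb1 y hy]
      have h3 : ev c x + y = y ↔ ev c x = 0 := add_eq_right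
      simp only [h3]
    have hmem : ∀ c : Mon n d → ZMod p, ev c x ∈ Y' := fun c => (hY _).2 (ev_fix c x)
    have h4 : ∀ G : KK p → ℝ, ∑ c : Mon n d → ZMod p, G (ev c x) * g c = (∑ y ∈ Y', G y) * S := by
      intro G
      rw [Finset.sum_mul]
      have h5 : ∀ y ∈ Y', G y * S =
          ∑ c : Mon n d → ZMod p, G y * ((if ev c x = y then (1 : ℝ) else 0) * g c) := by
        intro y hy
        rw [← h2 y hy, Finset.mul_sum]
      rw [Finset.sum_congr rfl h5, Finset.sum_comm]
      refine Finset.sum_congr rfl fun c _ => ?_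
      rw [Finset.sum_eq_single (ev c x)]
      · rw [if_pos rfl, one_mul]
      · intro y _ hy
        rw [if_neg (Ne.symm hy)]
        ring
      · intro h6
        exact absurd (hmem c) h6
    have h7 := h4 F
    have h8 := h4 (fun _ => 1)
    simp only [one_mul, Finset.sum_const, nsmul_eq_mul, mul_one] at h8
    rw [hYc] at h8
    push_cast at h8
    have hp0 : (0 : ℝ) < (p : ℝ) ^ deg x := by
      have := hp.out.pos
      positivity
    unfold EM
    rw [h7, h8]
    field_simp
  | add g h _ _ ih ih' =>
    have e : (fun c : Mon n d → ZMod p => F (ev c x) * (g c + h c)) =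
        fun c => F (ev c x) * g c + F (ev c x) * h c := by
      funext c
      ring
    rw [e, EM_add', EM_add', ih, ih', mul_add]

end Pool.Agent.K1H33.DC
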