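import Pool.Agent.K1H81.DC.Stm

set_option autoImplicit false
set_option linter.unusedSectionVars false

namespace Pool.Agent.K1H33.DC

open Finset hiding val
open Pool.Agent.Y722.HS Pool.Agent.X280.HG Pool.Agent.X280.BP Pool.Agent.X280.UC
open Pool.Agent.K1H81.HV (KK NV PF DD ev Fr deg Dep WD mean mem_PF mem_DD sum_PF card_PF deg_pos
  ev_fix)
open Pool.Agent.K1H81.DC

variable {p : ℕ} [hp : Fact p.Prime] {n d : ℕ}

theorem qc_cases (j : ℕ) (y : KK p) : (y = 0 ∧ qc p j y = 0) ∨ (y ≠ 0 ∧ qc p j y ^ 2 = 1) := by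
  classical
  by_cases h : y = 0
  · left
    refine ⟨h, ?_⟩
    unfold qc
    rw [if_pos h]
  · right
    refine ⟨h, ?_⟩
    unfold qc
    rw [if_neg h]
    split_ifs
    · norm_num
    · norm_num

theorem qc_odd (j l : ℕ) (hl : Odd l) (y : KK p) : qc p j y ^ l = qc p j y := by
  obtain ⟨t, rfl⟩ := hl
  rcases qc_cases j y with ⟨_, h⟩ | ⟨_, h⟩
  · rw [h, zero_pow (by omega)]
  · rw [pow_succ, pow_mul, h, one_pow, one_mul]

open Classical in
theorem qc_even (j l : ℕ) (hl : Even l) (h0 : 0 < l) (y : KK p) :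
    qc p j y ^ l = 1 - (if y = 0 then (1 : ℝ) else 0) := by
  obtain ⟨t, rfl⟩ := hl
  rcases qc_cases j y with ⟨hy, h⟩ | ⟨hy, h⟩
  · rw [h, zero_pow (by omega), if_pos hy]
    norm_num
  · rw [← two_mul, pow_mul, h, one_pow, if_neg hy]
    norm_num

open Classical in
theorem bound (n k r : ℕ) (hk : k ∈ Icc 1 r) (Q : NV p n → Prop) :
    (∑ j ∈ k.divisors with Even (k / j), (((DD p n j).filter Q).card : ℝ) = 0) ∨
    ∃ h : ℕ, 0 < h ∧ k = 2 * h ∧
      ∑ j ∈ k.divisors with Even (k / j), (((DD p n j).filter Q).card : ℝ) ≤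
        r * (((PF p n h).filter Q).card : ℝ) := by
  rw [Finset.mem_Icc] at hk
  rcases Nat.even_or_odd k with he | ho
  · right
    obtain ⟨h, hh⟩ := he
    have h0 : 0 < h := by omega
    refine ⟨h, h0, by omega, ?_⟩
    have h1 : ∀ j ∈ k.divisors.filter (fun j => Even (k / j)),
        (((DD p n j).filter Q).card : ℝ) ≤ (((PF p n h).filter Q).card : ℝ) := by
      intro j hj
      rw [Finset.mem_filter, Nat.mem_divisors] at hj
      obtain ⟨⟨hjk, hk0⟩, t, ht⟩ := hj
      have h2 : k = j * (k / j) := (Nat.mul_div_cancel' hjk).symm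
      have h3 : h = j * t := by
        have : h + h = j * t + j * t := by rw [← hh, ← mul_add, ← ht]; exact h2
        omega
      have h4 : (DD p n j).filter Q ⊆ (PF p n h).filter Q := by
        intro v hv
        rw [Finset.mem_filter, mem_DD] at hv
        rw [Finset.mem_filter, mem_PF]
        exact ⟨⟨h0, hv.1 ▸ ⟨t, h3⟩⟩, hv.2⟩
      exact_mod_cast Finset.card_le_card h4
    refine (Finset.sum_le_card_nsmul _ _ _ h1).trans ?_
    rw [nsmul_eq_mul]
    have h5 : (k.divisors.filter (fun j => Even (k / j))).card ≤ r :=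
      (Finset.card_filter_le _ _).trans ((Nat.card_divisors_le_self k).trans hk.2)
    have h6 : ((k.divisors.filter (fun j => Even (k / j))).card : ℝ) ≤ r := by exact_mod_cast h5
    exact mul_le_mul_of_nonneg_right h6 (Nat.cast_nonneg _)
  · left
    apply Finset.sum_eq_zero
    intro j hj
    exfalso
    rw [Finset.mem_filter, Nat.mem_divisors] at hj
    obtain ⟨⟨hjk, hk0⟩, ht⟩ := hj
    have h2 : k = j * (k / j) := (Nat.mul_div_cancel' hjk).symm
    have h3 : Even k := by
      rw [h2]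
      exact ht.mul_left j
    exact (Nat.not_even_iff_odd.2 ho) h3

open Classical in
theorem num_eq (hQP : S_QP) (hp2 : p ≠ 2) (k : ℕ) (hk : 0 < k) (c : Mon n d → ZMod p) :
    ∑ v ∈ PF p n k, qc p k (ev c v) =
      (∑ j ∈ k.divisors with Odd (k / j), ∑ v ∈ DD p n j, qc p j (ev c v) +
        ∑ j ∈ k.divisors with Even (k / j), ((DD p n j).card : ℝ)) -
      ∑ j ∈ k.divisors with Even (k / j),
        (((DD p n j).filter (fun v => ev c v = 0)).card : ℝ) := by
  rw [sum_PF k hk]
  have h1 : ∀ j ∈ k.divisors, ∀ v ∈ DD p n j, qc p k (ev c v) = qc p j (ev c v) ^ (k / j) := by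
    intro j hj v hv
    rw [Nat.mem_divisors] at hj
    have h2 : j * (k / j) = k := Nat.mul_div_cancel' hj.1
    have hj0 : 0 < j := Nat.pos_of_dvd_of_pos hj.1 hk
    have h3 : 0 < k / j := Nat.div_pos (Nat.le_of_dvd hk hj.1) hj0
    have h4 : ev c v ^ p ^ j = ev c v := by
      have h5 := ev_fix c v
      rwa [mem_DD.1 hv] at h5
    have h6 := (hQP p hp2 j hj0 (ev c v) h4).1 (k / j) h3
    rwa [h2] at h6
  have h2 : ∑ j ∈ k.divisors, ∑ v ∈ DD p n j, qc p k (ev c v) =
      ∑ j ∈ k.divisors, ∑ v ∈ DD p n j, qc p j (ev c v) ^ (k / j) :=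
    Finset.sum_congr rfl fun j hj => Finset.sum_congr rfl fun v hv => h1 j hj v hv
  rw [h2, ← Finset.sum_filter_add_sum_filter_not k.divisors (fun j => Odd (k / j)), add_sub_assoc,
    ← Finset.sum_sub_distrib]
  have h3 : k.divisors.filter (fun j => ¬ Odd (k / j)) =
      k.divisors.filter (fun j => Even (k / j)) := by
    apply Finset.filter_congr
    intro j _
    exact Nat.not_odd_iff_even
  rw [h3]
  refine congrArg₂ (· + ·) ?_ ?_
  · refine Finset.sum_congr rfl fun j hj => Finset.sum_congr rfl fun v hv => ?_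
    exact qc_odd j _ (Finset.mem_filter.1 hj).2 _
  · refine Finset.sum_congr rfl fun j hj => ?_
    rw [Finset.mem_filter, Nat.mem_divisors] at hj
    have hj0 : 0 < j := Nat.pos_of_dvd_of_pos hj.1.1 hk
    have h4 : 0 < k / j := Nat.div_pos (Nat.le_of_dvd hk hj.1.1) hj0
    rw [Finset.sum_congr rfl fun v _ => qc_even j (k / j) hj.2 h4 (ev c v),
      Finset.sum_sub_distrib, Finset.sum_const, nsmul_eq_mul, mul_one, Finset.sum_boole]

theorem card_PF_le (n h : ℕ) (hh : 0 < h) :
    ((PF p n h).card : ℝ) ≤ (n + 1) * ((p : ℝ) ^ h) ^ n := by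
  rw [card_PF n h hh]
  have h1 : (1 : ℝ) ≤ (p : ℝ) ^ h := one_le_pow₀ (by exact_mod_cast hp.out.one_lt.le)
  have h2 : ∀ i ∈ range (n + 1), ((p : ℝ) ^ h) ^ i ≤ ((p : ℝ) ^ h) ^ n := by
    intro i hi
    rw [Finset.mem_range] at hi
    exact pow_le_pow_right₀ h1 (by omega)
  refine (Finset.sum_le_card_nsmul _ _ _ h2).trans ?_
  rw [nsmul_eq_mul, Finset.card_range]
  push_cast
  exact le_rfl

theorem near (hQP : S_QP) (hZC : S_ZC) : S_NEAR := by
  classical
  intro m d r hm
  obtain ⟨C0, hC00, hC0⟩ := hZC (2 * m) d (by omega)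
  refine ⟨r * C0 + r * (2 * m + 1), by positivity, ?_⟩
  intro p hp hp2 k hk c
  have hk1 : 0 < k := (Finset.mem_Icc.1 hk).1
  have hpk : (0 : ℝ) < ((p : ℝ) ^ k) ^ m := by
    have := hp.out.pos
    positivity
  have hp1 : (1 : ℝ) ≤ p := by exact_mod_cast hp.out.one_lt.le
  have hr0 : (0 : ℝ) ≤ r := Nat.cast_nonneg _
  -- the difference
  have hdiff : tq m d p k c - tm m d p k c =
      - ((∑ j ∈ k.divisors with Even (k / j),
        (((DD p (2 * m) j).filter (fun v => ev c v = 0)).card : ℝ)) / ((p : ℝ) ^ k) ^ m) := by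
    unfold tq tm
    rw [num_eq hQP hp2 k hk1 c, ← sub_div, ← neg_div]
    congr 1
    ring
  have hpow : ∀ h : ℕ, k = 2 * h → ((p : ℝ) ^ k) ^ m = ((p : ℝ) ^ h) ^ (2 * m) := by
    intro h hh
    rw [hh, ← pow_mul, ← pow_mul]
    congr 1
    ring
  -- bound by all points
  have hall : ∀ Q : NV p (2 * m) → Prop,
      (∑ j ∈ k.divisors with Even (k / j), (((DD p (2 * m) j).filter Q).card : ℝ)) /
        ((p : ℝ) ^ k) ^ m ≤ r * (2 * m + 1) := by
    intro Q
    rcases bound (p := p) (2 * m) k r hk Q with h0 | ⟨h, hh0, hkh, hb⟩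
    · rw [h0, zero_div]
      positivity
    · rw [div_le_iff₀ hpk, hpow h hkh]
      refine hb.trans ?_
      rw [mul_assoc]
      refine mul_le_mul_of_nonneg_left ?_ hr0
      have h1 : (((PF p (2 * m) h).filter Q).card : ℝ) ≤ ((PF p (2 * m) h).card : ℝ) := by
        exact_mod_cast Finset.card_filter_le _ _
      refine h1.trans ?_
      have h2 := card_PF_le (p := p) (2 * m) h hh0
      push_cast at h2
      exact h2
  have hnn : ∀ Q : NV p (2 * m) → Prop, 0 ≤
      (∑ j ∈ k.divisors with Even (k / j), (((DD p (2 * m) j).filter Q).card : ℝ)) /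
        ((p : ℝ) ^ k) ^ m := by
    intro Q
    positivity
  constructor
  · rw [hdiff, abs_neg, abs_of_nonneg (hnn _)]
    by_cases hc : c = 0
    · rw [if_pos hc, mul_one]
      have h1 := hall (fun v => ev c v = 0)
      have h2 : 0 ≤ (r : ℝ) * C0 := by positivity
      linarith
    · rw [if_neg hc]
      rcases bound (p := p) (2 * m) k r hk (fun v => ev c v = 0) with h0 | ⟨h, hh0, hkh, hb⟩
      · rw [h0, zero_div]
        positivity
      · have h1 := hC0 p h hh0 c hc
        have hph : (0 : ℝ) < (p : ℝ) ^ h := by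
          have := hp.out.pos
          positivity
        have h2 : (p : ℝ) ≤ (p : ℝ) ^ h := by
          calc (p : ℝ) = (p : ℝ) ^ 1 := (pow_one _).symm
            _ ≤ (p : ℝ) ^ h := pow_le_pow_right₀ hp1 hh0
        have h3 : ((p : ℝ) ^ h) ^ (2 * m) = ((p : ℝ) ^ h) ^ (2 * m - 1) * (p : ℝ) ^ h := by
          rw [← pow_succ]
          congr 1
          omega
        have h4 : (∑ j ∈ k.divisors with Even (k / j),
            (((DD p (2 * m) j).filter (fun v => ev c v = 0)).card : ℝ)) / ((p : ℝ) ^ k) ^ m ≤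
            r * C0 / (p : ℝ) ^ h := by
          rw [div_le_div_iff₀ hpk hph, hpow h hkh, h3]
          have h5 := hb.trans (mul_le_mul_of_nonneg_left h1 hr0)
          have h6 := mul_le_mul_of_nonneg_right h5 hph.le
          refine h6.trans (le_of_eq ?_)
          ring
        refine h4.trans ?_
        have h7 : (r : ℝ) * C0 / (p : ℝ) ^ h ≤ r * C0 / p := by
          gcongr
        refine h7.trans ?_
        rw [mul_one_div]
        gcongr
        have : (0 : ℝ) ≤ (r : ℝ) * (2 * m + 1) := by positivity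
        linarith
  · intro hc
    have hev : ∀ v : NV p (2 * m), ev c v = 0 := by
      intro v
      have h1 := Pool.Agent.K1H81.HV.ev_add c c v
      rw [hc, add_zero] at h1
      rw [hc]
      exact left_eq_add.1 h1
    have h1 : tm m d p k c = (∑ j ∈ k.divisors with Even (k / j),
        (((DD p (2 * m) j).filter (fun v => ev c v = 0)).card : ℝ)) / ((p : ℝ) ^ k) ^ m := by
      unfold tm
      congr 1
      have h2 : ∑ j ∈ k.divisors with Odd (k / j), ∑ v ∈ DD p (2 * m) j, qc p j (ev c v) = 0 := by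
        apply Finset.sum_eq_zero
        intro j _
        apply Finset.sum_eq_zero
        intro v _
        unfold qc
        rw [if_pos (hev v)]
      rw [h2, zero_add]
      refine Finset.sum_congr rfl fun j _ => ?_
      rw [Finset.filter_true_of_mem fun v _ => hev v]
    rw [h1, abs_of_nonneg (hnn _)]
    have h2 := hall (fun v => ev c v = 0)
    have h3 : 0 ≤ (r : ℝ) * C0 := by positivity
    linarith

end Pool.Agent.K1H33.DC
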